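import Mathlib

set_option autoImplicit false

namespace Pool.Agent.MP_181839_nt.H47

open Finset

theorem core (n : ℕ) (hn : 1 ≤ n) (al w : ℕ → ℝ) (W D δ : ℝ) (hD : 0 ≤ D) (hδ : 0 ≤ δ)
    (h0 : ∀ m, 0 ≤ al m) (h1 : ∀ m, al m ≤ 1) (hw : ∀ e, 0 ≤ w e)
    (hW : ∑ e ∈ Icc 1 n, w e ≤ W)
    (h3 : ∑ e ∈ Icc 1 n, (if n < 3 * e then w e else 0) ≤ D + δ)
    (h2 : ∑ e ∈ Icc 1 n, (if n < 2 * e then w e else 0) ≤ δ)
    (hrec : ∀ m : ℕ, (m : ℝ) * al m ≤ ∑ e ∈ Icc 1 m, w e * al (m - e)) :
    (n : ℝ) ^ 2 * al n ≤ 12 * W ^ 3 / n + 2 * W * δ + 2 * D * (D + δ) + n * δ := by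
  have hnR : (0 : ℝ) < n := by exact_mod_cast hn
  have hW0 : 0 ≤ W := le_trans (sum_nonneg fun e _ => hw e) hW
  have ext : ∀ (m : ℕ) (g : ℕ → ℝ), m ≤ n → (∀ e, 0 ≤ g e) →
      ∑ e ∈ Icc 1 m, g e ≤ ∑ e ∈ Icc 1 n, g e := by
    intro m g hm hg
    exact sum_le_sum_of_subset_of_nonneg (Icc_subset_Icc_right hm) (fun e _ _ => hg e)
  -- first level
  have A1 : ∀ m : ℕ, m ≤ n → n ≤ 6 * m → al m ≤ 6 * W / n := by
    intro m hm h6
    have h6R : (n : ℝ) ≤ 6 * m := by exact_mod_cast h6
    have : (m : ℝ) * al m ≤ W := by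
      calc _ ≤ _ := hrec m
        _ ≤ ∑ e ∈ Icc 1 m, w e :=
            sum_le_sum fun e _ => mul_le_of_le_one_right (hw e) (h1 _)
        _ ≤ _ := (ext m w hm hw).trans hW
    rw [le_div_iff₀ hnR]
    nlinarith [h0 m]
  -- second level
  have A2 : ∀ (m k : ℕ) (Y : ℝ), m ≤ n → n ≤ 2 * m → (∀ e, e ≤ m → 6 * (m - e) < n → n < k * e) →
      ∑ e ∈ Icc 1 n, (if n < k * e then w e else 0) ≤ Y →
      al m ≤ 2 / n * (6 * W ^ 2 / n + Y) := by
    intro m k Y hm h2m hk hY
    have h2R : (n : ℝ) ≤ 2 * m := by exact_mod_cast h2m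
    have hc : 0 ≤ 6 * W / n := by positivity
    have : (m : ℝ) * al m ≤ 6 * W ^ 2 / n + Y := by
      calc _ ≤ _ := hrec m
        _ ≤ ∑ e ∈ Icc 1 m, (w e * (6 * W / n) + (if n < k * e then w e else 0)) := by
            apply sum_le_sum
            intro e he
            have he2 := (mem_Icc.mp he).2
            by_cases h : 6 * (m - e) < n
            · rw [if_pos (hk e he2 h)]
              have := mul_le_of_le_one_right (hw e) (h1 (m - e))
              have := mul_nonneg (hw e) hc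
              linarith
            · have := mul_le_mul_of_nonneg_left (A1 (m - e) (by omega) (by omega)) (hw e)
              have h' : 0 ≤ (if n < k * e then w e else 0) := by
                split_ifs
                · exact hw e
                · exact le_rfl
              linarith
        _ ≤ ∑ e ∈ Icc 1 n, (w e * (6 * W / n) + (if n < k * e then w e else 0)) := by
            apply ext m _ hm
            intro e
            have := mul_nonneg (hw e) hc
            split_ifs
            · linarith [hw e]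
            · linarith
        _ = (∑ e ∈ Icc 1 n, w e) * (6 * W / n) +
              ∑ e ∈ Icc 1 n, (if n < k * e then w e else 0) := by
            rw [sum_add_distrib, sum_mul]
        _ ≤ W * (6 * W / n) + Y := add_le_add (mul_le_mul_of_nonneg_right hW hc) hY
        _ = _ := by ring
    rw [div_mul_eq_mul_div, le_div_iff₀ hnR]
    nlinarith [h0 m]
  set X : ℝ := 2 / n * (6 * W ^ 2 / n + δ) with hX
  have hX0 : 0 ≤ X := by positivity
  have hY0 : 0 ≤ 2 / n * D := by positivity
  have main : (n : ℝ) * al n ≤ W * X + (D + δ) * (2 / n * D) + δ := by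
    calc _ ≤ _ := hrec n
      _ ≤ ∑ e ∈ Icc 1 n, (w e * X + (if n < 3 * e then w e else 0) * (2 / n * D) +
            (if n < 2 * e then w e else 0)) := by
          apply sum_le_sum
          intro e he
          have he2 := (mem_Icc.mp he).2
          have hwX := mul_nonneg (hw e) hX0
          have hwY := mul_nonneg (hw e) hY0
          by_cases c2 : n < 2 * e
          · rw [if_pos c2, if_pos (by omega)]
            have := mul_le_of_le_one_right (hw e) (h1 (n - e))
            linarith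
          · rw [if_neg c2]
            by_cases c3 : n < 3 * e
            · rw [if_pos c3]
              have := mul_le_mul_of_nonneg_left
                (A2 (n - e) 3 (D + δ) (by omega) (by omega) (by intro e' _ _; omega) h3) (hw e)
              have e1 : 2 / (n : ℝ) * (6 * W ^ 2 / n + (D + δ)) = X + 2 / n * D := by
                rw [hX]; ring
              rw [e1] at this
              linarith
            · rw [if_neg c3]
              have := mul_le_mul_of_nonneg_left
                (A2 (n - e) 2 δ (by omega) (by omega) (by intro e' _ _; omega) h2) (hw e)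
              linarith
      _ = (∑ e ∈ Icc 1 n, w e) * X +
            (∑ e ∈ Icc 1 n, (if n < 3 * e then w e else 0)) * (2 / n * D) +
            ∑ e ∈ Icc 1 n, (if n < 2 * e then w e else 0) := by
          rw [sum_add_distrib, sum_add_distrib, sum_mul, sum_mul]
      _ ≤ _ := add_le_add (add_le_add (mul_le_mul_of_nonneg_right hW hX0)
          (mul_le_mul_of_nonneg_right h3 hY0)) h2
  calc (n : ℝ) ^ 2 * al n = n * (n * al n) := by ring
    _ ≤ n * (W * X + (D + δ) * (2 / n * D) + δ) := mul_le_mul_of_nonneg_left main hnR.le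
    _ = _ := by rw [hX]; field_simp; ring

theorem sum_inv_sq (n : ℕ) : ∑ e ∈ Icc 1 n, (1 : ℝ) / (e : ℝ) ^ 2 ≤ 2 := by
  have : ∀ k : ℕ, ∑ e ∈ Icc 1 (k + 1), (1 : ℝ) / (e : ℝ) ^ 2 ≤ 2 - 1 / ((k : ℝ) + 1) := by
    intro k
    induction k with
    | zero => norm_num
    | succ k ih =>
      rw [sum_Icc_succ_top (by omega)]
      push_cast
      have h1 : (1 : ℝ) / ((k : ℝ) + 1 + 1) ^ 2 ≤ 1 / ((k : ℝ) + 1) - 1 / ((k : ℝ) + 1 + 1) := by
        have hk : (0 : ℝ) ≤ k := Nat.cast_nonneg k
        rw [div_sub_div _ _ (by positivity) (by positivity), div_le_div_iff₀ (by positivity)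
          (by positivity)]
        nlinarith
      linarith
  rcases n with _ | k
  · simp
  · have h := this k
    have : (0 : ℝ) ≤ 1 / ((k : ℝ) + 1) := by positivity
    linarith

theorem tail_sq (n : ℕ) (hn : 1 ≤ n) (p : ℕ → Prop) [DecidablePred p]
    (hp : ∀ e, p e → n < 3 * e) :
    ∑ e ∈ Icc 1 n, (if p e then (1 : ℝ) / (e : ℝ) ^ 2 else 0) ≤ 9 / n := by
  have hnR : (0 : ℝ) < n := by exact_mod_cast hn
  calc _ ≤ ∑ _e ∈ Icc 1 n, (9 : ℝ) / (n : ℝ) ^ 2 := by
        apply sum_le_sum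
        intro e he
        split_ifs with h
        · have h1 : (n : ℝ) ≤ 3 * e := by exact_mod_cast (hp e h).le
          have h2 : (0 : ℝ) < e := by linarith
          rw [div_le_div_iff₀ (by positivity) (by positivity)]
          nlinarith
        · positivity
    _ = 9 / n := by simp; field_simp

theorem analytic (D C : ℝ) (hD : 0 ≤ D) (n : ℕ) (hn : 1 ≤ n)
    (hC : (n.divisors.card : ℝ) ^ 3 ≤ C * n) (al w : ℕ → ℝ)
    (h0 : ∀ m, 0 ≤ al m) (h1 : ∀ m, al m ≤ 1) (hw : ∀ e, 0 ≤ w e)
    (hb : ∀ e, 1 ≤ e → w e ≤ (if e ∣ n ∧ e < n then D else 0) + 32 * D * (1 / (e : ℝ) ^ 2))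
    (hrec : ∀ m : ℕ, (m : ℝ) * al m ≤ ∑ e ∈ Icc 1 m, w e * al (m - e)) :
    (n : ℝ) ^ 2 * al n ≤
      12 * 65 ^ 3 * D ^ 3 * C + 2 * 65 * 288 * D ^ 2 + 2 * 289 * D ^ 2 + 288 * D := by
  have hnR : (1 : ℝ) ≤ n := by exact_mod_cast hn
  set τ : ℝ := (n.divisors.card : ℝ) with hτ
  have hτ1 : 1 ≤ τ := by
    have : 1 ≤ n.divisors.card := card_pos.mpr ⟨1, Nat.one_mem_divisors.mpr (by omega)⟩
    rw [hτ]; exact_mod_cast this
  have hτn : τ ≤ n := by rw [hτ]; exact_mod_cast Nat.card_divisors_le_self n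
  have gen : ∀ (p : ℕ → Prop) [DecidablePred p] (c s : ℝ),
      (((Icc 1 n).filter (fun e => p e ∧ e ∣ n ∧ e < n)).card : ℝ) ≤ c →
      ∑ e ∈ Icc 1 n, (if p e then (1 : ℝ) / (e : ℝ) ^ 2 else 0) ≤ s →
      ∑ e ∈ Icc 1 n, (if p e then w e else 0) ≤ c * D + 32 * D * s := by
    intro p _ c s hc hs
    calc _ ≤ ∑ e ∈ Icc 1 n, ((if p e ∧ e ∣ n ∧ e < n then D else 0) +
            32 * D * (if p e then (1 : ℝ) / (e : ℝ) ^ 2 else 0)) := by
          apply sum_le_sum
          intro e he
          have := hb e (mem_Icc.mp he).1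
          by_cases h : p e
          · simpa [h] using this
          · simp [h]
      _ = (((Icc 1 n).filter (fun e => p e ∧ e ∣ n ∧ e < n)).card : ℝ) * D +
            32 * D * ∑ e ∈ Icc 1 n, (if p e then (1 : ℝ) / (e : ℝ) ^ 2 else 0) := by
          rw [sum_add_distrib, ← mul_sum, ← sum_filter, sum_const, nsmul_eq_mul]
      _ ≤ _ := add_le_add (mul_le_mul_of_nonneg_right hc hD)
          (mul_le_mul_of_nonneg_left hs (by positivity))
  have hW : ∑ e ∈ Icc 1 n, w e ≤ 65 * D * τ := by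
    have := gen (fun _ => True) τ 2 (by
      rw [hτ]
      have : ((Icc 1 n).filter (fun e => True ∧ e ∣ n ∧ e < n)).card ≤ n.divisors.card := by
        apply card_le_card
        intro e he
        exact Nat.mem_divisors.mpr ⟨(mem_filter.mp he).2.2.1, by omega⟩
      exact_mod_cast this) (by simpa using sum_inv_sq n)
    simp only [if_true] at this
    nlinarith
  have h3 := gen (fun e => n < 3 * e) 1 (9 / n) (by
      have : ((Icc 1 n).filter (fun e => n < 3 * e ∧ e ∣ n ∧ e < n)).card ≤ 1 := by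
        apply card_le_one.mpr
        have key : ∀ e, e ∈ (Icc 1 n).filter (fun e => n < 3 * e ∧ e ∣ n ∧ e < n) → n = 2 * e := by
          intro e he
          obtain ⟨_, h1, ⟨k, hk⟩, h2⟩ := mem_filter.mp he
          have k3 : k < 3 := by
            by_contra hh
            have : e * 3 ≤ e * k := Nat.mul_le_mul_left _ (by omega)
            omega
          interval_cases k <;> omega
        intro a ha b hb'
        have := key a ha
        have := key b hb'
        omega
      exact_mod_cast this) (tail_sq n hn _ (fun e h => h))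
  have h2 := gen (fun e => n < 2 * e) 0 (9 / n) (by
      have : ((Icc 1 n).filter (fun e => n < 2 * e ∧ e ∣ n ∧ e < n)).card ≤ 0 := by
        rw [Nat.le_zero, card_eq_zero, filter_eq_empty_iff]
        rintro e _ ⟨h1, ⟨k, hk⟩, h2⟩
        have k2 : k < 2 := by
          by_contra hh
          have : e * 2 ≤ e * k := Nat.mul_le_mul_left _ (by omega)
          omega
        interval_cases k <;> omega
      exact_mod_cast this) (tail_sq n hn _ (fun e h => by omega))
  have hc := core n hn al w (65 * D * τ) D (32 * D * (9 / n)) hD (by positivity) h0 h1 hw hW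
    (by linarith) (by linarith) hrec
  have e1 : 12 * (65 * D * τ) ^ 3 / n ≤ 12 * 65 ^ 3 * D ^ 3 * C := by
    rw [div_le_iff₀ (by linarith)]
    calc 12 * (65 * D * τ) ^ 3 = 12 * 65 ^ 3 * D ^ 3 * τ ^ 3 := by ring
      _ ≤ 12 * 65 ^ 3 * D ^ 3 * (C * n) := mul_le_mul_of_nonneg_left hC (by positivity)
      _ = _ := by ring
  have r1 : τ / n ≤ 1 := (div_le_one (by linarith)).mpr hτn
  have r2 : (1 : ℝ) / n ≤ 1 := (div_le_one (by linarith)).mpr hnR
  have e2 : 2 * (65 * D * τ) * (32 * D * (9 / n)) ≤ 2 * 65 * 288 * D ^ 2 := by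
    calc _ = 2 * 65 * 288 * D ^ 2 * (τ / n) := by ring
      _ ≤ _ := mul_le_of_le_one_right (by positivity) r1
  have e3 : 2 * D * (D + 32 * D * (9 / n)) ≤ 2 * 289 * D ^ 2 := by
    calc _ = 2 * D ^ 2 + 2 * 288 * D ^ 2 * (1 / n) := by ring
      _ ≤ 2 * D ^ 2 + 2 * 288 * D ^ 2 :=
          add_le_add le_rfl (mul_le_of_le_one_right (by positivity) r2)
      _ = _ := by ring
  have e4 : (n : ℝ) * (32 * D * (9 / n)) = 288 * D := by field_simp; ring
  linarith

theorem geom_sq {q : ℝ} (hq : 3 ≤ q) (N : ℕ) :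
    ∑ n ∈ range (N + 1), q ^ n / ((n : ℝ) + 2) ^ 2 ≤ 4 * (q ^ N / ((N : ℝ) + 2) ^ 2) := by
  induction N with
  | zero => norm_num
  | succ N ih =>
    rw [sum_range_succ]
    push_cast
    have hN : (0 : ℝ) ≤ N := Nat.cast_nonneg N
    have hp : 0 < q ^ N := by positivity
    have : 4 * (q ^ N / ((N : ℝ) + 2) ^ 2) ≤ 3 * (q ^ (N + 1) / ((N : ℝ) + 1 + 2) ^ 2) := by
      rw [← mul_div_assoc, ← mul_div_assoc, div_le_div_iff₀ (by positivity) (by positivity),
        pow_succ q N]
      have h1 : 4 * ((N : ℝ) + 1 + 2) ^ 2 ≤ 3 * q * ((N : ℝ) + 2) ^ 2 := by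
        nlinarith [mul_nonneg hN hN, mul_le_mul_of_nonneg_right hq (sq_nonneg ((N : ℝ) + 2))]
      nlinarith [mul_le_mul_of_nonneg_left h1 hp.le]
    linarith

end Pool.Agent.MP_181839_nt.H47
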