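import Pool.Agent.MP_181839_nt.H47.Defs

set_option autoImplicit false

namespace Pool.Agent.MP_181839_nt.H47

open Polynomial Finset

variable {F : Type} [Field F] [Fintype F]

/-- monic polynomials of degree `m` -/
theorem fin_monic (m : ℕ) : {f : F[X] | f.Monic ∧ f.natDegree = m}.Finite := by
  have e := (monicEquivDegreeLT (R := F) m).trans (degreeLTEquiv F m).toEquiv
  have : Finite {p : F[X] // p.Monic ∧ p.natDegree = m} := Finite.of_equiv _ e.symm
  exact Set.finite_coe_iff.mp this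

noncomputable def Mo (F : Type) [Field F] [Fintype F] (m : ℕ) : Finset F[X] :=
  (fin_monic (F := F) m).toFinset

theorem mem_Mo {m : ℕ} {f : F[X]} : f ∈ Mo F m ↔ f.Monic ∧ f.natDegree = m := by
  simp [Mo]

theorem card_Mo (m : ℕ) : (Mo F m).card = Fintype.card F ^ m := by
  have e := (monicEquivDegreeLT (R := F) m).trans (degreeLTEquiv F m).toEquiv
  have h1 : Nat.card {p : F[X] // p.Monic ∧ p.natDegree = m} = Fintype.card F ^ m := by
    rw [Nat.card_congr e]; simp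
  rw [← h1, Mo, ← Set.ncard_eq_toFinset_card _ (fin_monic m)]
  rfl

theorem q_ge : 2 ≤ Fintype.card F := Fintype.one_lt_card

/-- `a ^ q ^ g - a` -/
noncomputable def G (a : F[X]) (g : ℕ) : F[X] := a ^ (Fintype.card F ^ g) - a

theorem G_natDegree {a : F[X]} (ha : 0 < a.natDegree) {g : ℕ} (hg : 1 ≤ g) :
    (G a g).natDegree = a.natDegree * Fintype.card F ^ g := by
  have h1 : 2 ≤ Fintype.card F ^ g :=
    le_trans (q_ge (F := F)) (Nat.le_self_pow (by omega) _)
  unfold G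
  rw [natDegree_sub_eq_left_of_natDegree_lt, natDegree_pow, mul_comm]
  rw [natDegree_pow]; nlinarith

theorem G_ne {a : F[X]} (ha : 0 < a.natDegree) {g : ℕ} (hg : 1 ≤ g) : G a g ≠ 0 := by
  intro h
  have h0 := G_natDegree ha hg
  rw [h, natDegree_zero] at h0
  have : 0 < a.natDegree * Fintype.card F ^ g :=
    Nat.mul_pos ha (pow_pos (by have := q_ge (F := F); omega) _)
  omega

theorem dvd_G_iff (a P : F[X]) (g : ℕ) :
    P ∣ G a g ↔ Function.IsPeriodicPt (fun y : AdjoinRoot P => y ^ Fintype.card F) g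
      (AdjoinRoot.mk P a) := by
  unfold G Function.IsPeriodicPt Function.IsFixedPt
  rw [pow_iterate, ← AdjoinRoot.mk_eq_zero, map_sub, map_pow, sub_eq_zero]

theorem dvd_G_gcd {a P : F[X]} {g h : ℕ} (h1 : P ∣ G a g) (h2 : P ∣ G a h) :
    P ∣ G a (Nat.gcd g h) := by
  rw [dvd_G_iff] at *
  exact h1.gcd h2

theorem dvd_G_dvd {a P : F[X]} {g h : ℕ} (h1 : P ∣ G a g) (h2 : g ∣ h) : P ∣ G a h := by
  rw [dvd_G_iff] at *
  exact h1.trans_dvd h2

theorem GX_dvd (a : F[X]) (g : ℕ) : G (X : F[X]) g ∣ G a g := by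
  unfold G
  have h1 : a ^ (Fintype.card F ^ g) = a.comp (X ^ (Fintype.card F ^ g)) := by
    induction g with
    | zero => simp
    | succ k ih =>
      rw [pow_succ, pow_mul, ih, ← FiniteField.expand_card, expand_eq_comp_X_pow, comp_assoc]
      simp [← pow_mul, mul_comm]
  have h2 := sub_dvd_eval_sub (X ^ (Fintype.card F ^ g) : F[X]) X (a.map C)
  rw [eval_map, eval_map] at h2
  rw [h1]
  have h3 : a.comp X = a := comp_X
  conv_rhs => rw [← h3]
  rw [h3]
  simpa [comp, h3] using h2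

theorem irr_dvd_G (a : F[X]) {P : F[X]} (hP : Irreducible P) {g : ℕ} (hg : P.natDegree ∣ g) :
    P ∣ G a g := by
  refine dvd_trans ?_ (GX_dvd a g)
  have := hP.natDegree_dvd_iff_dvd_X_pow_card_pow_sub_X.mp hg
  rwa [Nat.card_eq_fintype_card] at this

omit [Fintype F] in
theorem prod_irr_dvd {T : Finset F[X]} (hT : ∀ P ∈ T, P.Monic ∧ Irreducible P) {H : F[X]}
    (hH : ∀ P ∈ T, P ∣ H) : ∏ P ∈ T, P ∣ H := by
  apply Finset.prod_dvd_of_coprime _ hH
  intro P hP Q hQ hne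
  have h1 := hT P hP
  have h2 := hT Q hQ
  rw [Function.onFun, h1.2.coprime_iff_not_dvd]
  intro hd
  exact hne (eq_of_monic_of_associated h1.1 h2.1 (h1.2.associated_of_dvd h2.2 hd))

omit [Fintype F] in
theorem sum_deg_le {T : Finset F[X]} (hT : ∀ P ∈ T, P.Monic ∧ Irreducible P) {H : F[X]}
    (h0 : H ≠ 0) (hH : ∀ P ∈ T, P ∣ H) : ∑ P ∈ T, P.natDegree ≤ H.natDegree := by
  rw [← natDegree_prod_of_monic _ _ (fun P hP => (hT P hP).1)]
  exact natDegree_le_of_dvd (prod_irr_dvd hT hH) h0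

theorem cube_le (h : ℕ) : h ^ 3 ≤ 4 * 2 ^ h := by
  have key : ∀ k : ℕ, (k + 4) ^ 3 ≤ 4 * 2 ^ (k + 4) := by
    intro k
    induction k with
    | zero => norm_num
    | succ k ih =>
      have : (k + 1 + 4) ^ 3 ≤ 2 * (k + 4) ^ 3 := by ring_nf; nlinarith [Nat.zero_le k]
      calc (k + 1 + 4) ^ 3 ≤ 2 * (k + 4) ^ 3 := this
        _ ≤ 2 * (4 * 2 ^ (k + 4)) := by omega
        _ = 4 * 2 ^ (k + 1 + 4) := by ring
  rcases Nat.lt_or_ge h 4 with h4 | h4
  · interval_cases h <;> norm_num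
  · obtain ⟨k, rfl⟩ := Nat.exists_eq_add_of_le' h4
    exact key k

theorem cube_half {q : ℕ} (hq : 2 ≤ q) (e : ℕ) : e ^ 3 * q ^ (e / 2) ≤ 32 * q ^ e := by
  obtain ⟨h, hh⟩ : ∃ h, e = e / 2 + h := ⟨e - e / 2, by omega⟩
  have h1 : e ≤ 2 * h := by omega
  have h2 : e ^ 3 ≤ (2 * h) ^ 3 := Nat.pow_le_pow_left h1 3
  have h3 := cube_le h
  have h4 : 2 ^ h ≤ q ^ h := Nat.pow_le_pow_left hq h
  have h5 : q ^ e = q ^ (e / 2) * q ^ h := by rw [← pow_add, ← hh]
  rw [h5]
  have h6 : e ^ 3 ≤ 32 * q ^ h := by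
    calc e ^ 3 ≤ (2 * h) ^ 3 := h2
      _ = 8 * h ^ 3 := by ring
      _ ≤ 32 * q ^ h := by omega
  calc e ^ 3 * q ^ (e / 2) ≤ 32 * q ^ h * q ^ (e / 2) := Nat.mul_le_mul_right _ h6
    _ = _ := by ring

open Classical in
/-- monic irreducible polynomials dividing `G a g`, `1 ≤ g ≤ k`, have small total degree -/
theorem sum_deg_small {a : F[X]} (ha : 0 < a.natDegree) (k : ℕ) {T : Finset F[X]}
    (hT : ∀ P ∈ T, P.Monic ∧ Irreducible P)
    (hH : ∀ P ∈ T, ∃ g, 1 ≤ g ∧ g ≤ k ∧ P ∣ G a g) :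
    ∑ P ∈ T, P.natDegree ≤ k * (a.natDegree * Fintype.card F ^ k) := by
  calc ∑ P ∈ T, P.natDegree
      ≤ ∑ P ∈ T, ∑ g ∈ Icc 1 k, (if P ∣ G a g then P.natDegree else 0) := by
        apply sum_le_sum
        intro P hP
        obtain ⟨g, h1, h2, h3⟩ := hH P hP
        calc P.natDegree = (if P ∣ G a g then P.natDegree else 0) := by rw [if_pos h3]
          _ ≤ _ := single_le_sum (f := fun g => if P ∣ G a g then P.natDegree else 0)
              (fun _ _ => Nat.zero_le _) (mem_Icc.mpr ⟨h1, h2⟩)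
    _ = ∑ g ∈ Icc 1 k, ∑ P ∈ T.filter (fun P => P ∣ G a g), P.natDegree := by
        rw [sum_comm]
        simp only [sum_filter]
    _ ≤ ∑ g ∈ Icc 1 k, a.natDegree * Fintype.card F ^ k := by
        apply sum_le_sum
        intro g hg
        rw [mem_Icc] at hg
        calc _ ≤ (G a g).natDegree :=
              sum_deg_le (fun P hP => hT P (mem_filter.mp hP).1) (G_ne ha hg.1)
                (fun P hP => (mem_filter.mp hP).2)
          _ = a.natDegree * Fintype.card F ^ g := G_natDegree ha hg.1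
          _ ≤ _ := Nat.mul_le_mul_left _
              (Nat.pow_le_pow_right (by have := q_ge (F := F); omega) hg.2)
    _ = _ := by simp

end Pool.Agent.MP_181839_nt.H47
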