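import Mathlib

set_option autoImplicit false

namespace Pool.Agent.MP_181839_nt.H47

open Polynomial

/-- The norm `|f| = q ^ deg f` of a polynomial over a field with `q` elements. -/
def nrm {F : Type} [Field F] [Fintype F] (f : F[X]) : ℕ := Fintype.card F ^ f.natDegree

/-- `f` is monic, different from `1` and not irreducible. -/
def Composite {F : Type} [Field F] (f : F[X]) : Prop := f.Monic ∧ f ≠ 1 ∧ ¬ Irreducible f

/-- `a ^ (|f| - 1) ≡ 1 (mod f)`. -/
def IsPsp {F : Type} [Field F] [Fintype F] (a f : F[X]) : Prop := f ∣ a ^ (nrm f - 1) - 1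

/-- With `|f| - 1 = t * 2 ^ s`, `t` odd: `a ^ t ≡ ± 1` or `a ^ (t * 2 ^ r) ≡ -1 (mod f)` for some
`0 < r < s`. -/
def IsStrong {F : Type} [Field F] [Fintype F] (a f : F[X]) : Prop :=
  ∃ s t : ℕ, Odd t ∧ nrm f - 1 = t * 2 ^ s ∧
    (f ∣ a ^ t - 1 ∨ f ∣ a ^ t + 1 ∨ ∃ r : ℕ, 0 < r ∧ r < s ∧ f ∣ a ^ (t * 2 ^ r) + 1)

/-- Number of composite `a`-pseudoprimes of norm at most `N`. -/
noncomputable def cntC {F : Type} [Field F] [Fintype F] (a : F[X]) (N : ℕ) : ℕ :=
  {f : F[X] | Composite f ∧ nrm f ≤ N ∧ IsPsp a f}.ncard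

/-- Number of composite strong `a`-pseudoprimes of norm at most `N`. -/
noncomputable def cntS {F : Type} [Field F] [Fintype F] (a : F[X]) (N : ℕ) : ℕ :=
  {f : F[X] | Composite f ∧ nrm f ≤ N ∧ IsStrong a f}.ncard

end Pool.Agent.MP_181839_nt.H47
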