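import Pool.Agent.MP_181839_nt.H47.Rec

set_option autoImplicit false

namespace Pool.Agent.MP_181839_nt.H47

open Polynomial Finset UniqueFactorizationMonoid

variable {F : Type} [Field F] [Fintype F]

/-- monic irreducible polynomials of degree `m` -/
noncomputable def II (F : Type) [Field F] [Fintype F] (m : ℕ) : Finset F[X] :=
  TT (fun P : F[X] => P.natDegree = m) m

theorem mem_II {m : ℕ} (hm : 1 ≤ m) {P : F[X]} :
    P ∈ II F m ↔ P.Monic ∧ Irreducible P ∧ P.natDegree = m := by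
  unfold II
  rw [mem_TT hm]
  constructor
  · rintro ⟨h1, h2, h3, _⟩
    exact ⟨h1, h2, h3⟩
  · rintro ⟨h1, h2, h3⟩
    exact ⟨h1, h2, h3, h3 ▸ dvd_rfl⟩

open Classical in
theorem card_II {m : ℕ} (hm : 8 ≤ m) : Fintype.card F ^ m ≤ 2 * (m * (II F m).card) := by
  have hm1 : 1 ≤ m := by omega
  have hX : 0 < (X : F[X]).natDegree := by simp
  have hdeg : (G (X : F[X]) m).natDegree = Fintype.card F ^ m := by
    rw [G_natDegree hX hm1]; simp
  have h2 : 2 ≤ Fintype.card F ^ m := le_trans (q_ge (F := F)) (Nat.le_self_pow (by omega) _)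
  have hmon : (G (X : F[X]) m).Monic := by
    unfold G
    apply monic_X_pow_sub
    rw [degree_X]
    exact_mod_cast h2
  obtain ⟨p, hp, k, hpp, hk⟩ := FiniteField.card' F
  have hsq : Squarefree (G (X : F[X]) m) := by
    apply Separable.squarefree
    apply galois_poly_separable p
    rw [hk]
    exact dvd_pow (dvd_pow_self _ k.ne_zero) (by omega)
  have hnd := (squarefree_iff_nodup_normalizedFactors hmon.ne_zero).mp hsq
  set S := (normalizedFactors (G (X : F[X]) m)).toFinset with hS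
  have hnf : ∀ P ∈ S, Irreducible P ∧ P.Monic ∧ P ∣ G (X : F[X]) m := by
    intro P hP
    exact (Polynomial.mem_normalizedFactors_iff hmon.ne_zero).mp (Multiset.mem_toFinset.mp hP)
  have h3 : Fintype.card F ^ m ≤ ∑ P ∈ S, P.natDegree := by
    rw [← hdeg, deg_eq_sum hmon]
    apply sum_le_sum
    intro P _
    have := Multiset.nodup_iff_count_le_one.mp hnd P
    calc _ ≤ 1 * P.natDegree := Nat.mul_le_mul_right _ this
      _ = _ := one_mul _
  rw [← sum_filter_add_sum_filter_not S (fun P => P.natDegree = m)] at h3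
  have h4 : ∑ P ∈ S.filter (fun P => P.natDegree = m), P.natDegree ≤ m * (II F m).card := by
    calc _ = ∑ _P ∈ S.filter (fun P => P.natDegree = m), m :=
          sum_congr rfl fun P hP => (mem_filter.mp hP).2
      _ = m * (S.filter (fun P => P.natDegree = m)).card := by simp [mul_comm]
      _ ≤ _ := by
          apply Nat.mul_le_mul_left
          apply card_le_card
          intro P hP
          obtain ⟨h1, h2⟩ := mem_filter.mp hP
          exact (mem_II hm1).mpr ⟨(hnf P h1).2.1, (hnf P h1).1, h2⟩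
  have h5 : ∑ P ∈ S.filter (fun P => ¬ P.natDegree = m), P.natDegree ≤
      (m / 2) * ((X : F[X]).natDegree * Fintype.card F ^ (m / 2)) := by
    apply sum_deg_small hX
    · intro P hP
      obtain ⟨h1, _⟩ := mem_filter.mp hP
      exact ⟨(hnf P h1).2.1, (hnf P h1).1⟩
    · intro P hP
      obtain ⟨h1, h2⟩ := mem_filter.mp hP
      obtain ⟨a1, _, a3⟩ := hnf P h1
      refine ⟨P.natDegree, a1.natDegree_pos, ?_, irr_dvd_G _ a1 dvd_rfl⟩
      have : P.natDegree ∣ m := by
        apply a1.natDegree_dvd_of_dvd_X_pow_card_pow_sub_X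
        rw [Nat.card_eq_fintype_card]
        exact a3
      obtain ⟨c, hc⟩ := this
      have c2 : 2 ≤ c := by
        by_contra hh
        have : c < 2 := by omega
        interval_cases c <;> omega
      have : P.natDegree * 2 ≤ P.natDegree * c := Nat.mul_le_mul_left _ c2
      omega
  rw [natDegree_X, one_mul] at h5
  have h6 := cube_half (q_ge (F := F)) m
  have h7 : 64 * (m * Fintype.card F ^ (m / 2)) ≤ m ^ 3 * Fintype.card F ^ (m / 2) := by
    have : 64 * m ≤ m ^ 3 := by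
      have : 64 ≤ m * m := Nat.mul_le_mul hm hm
      calc 64 * m ≤ m * m * m := Nat.mul_le_mul_right _ this
        _ = _ := by ring
    calc _ = 64 * m * Fintype.card F ^ (m / 2) := by ring
      _ ≤ _ := Nat.mul_le_mul_right _ this
  have h8 : (m / 2) * Fintype.card F ^ (m / 2) ≤ m * Fintype.card F ^ (m / 2) :=
    Nat.mul_le_mul_right _ (Nat.div_le_self _ _)
  omega

theorem prod_sub_C (b : F[X]) : b ^ Fintype.card F - b = ∏ c : F, (b - C c) := by
  have hmon : (X ^ Fintype.card F - X : F[X]).Monic := by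
    apply monic_X_pow_sub
    rw [degree_X]
    exact_mod_cast (q_ge (F := F))
  have h1 := prod_multiset_X_sub_C_of_monic_of_roots_card_eq hmon (by
    rw [FiniteField.roots_X_pow_card_sub_X,
      FiniteField.X_pow_card_sub_X_natDegree_eq F Fintype.one_lt_card]
    rfl)
  rw [FiniteField.roots_X_pow_card_sub_X] at h1
  have h2 : (∏ c : F, (X - C c) : F[X]) = X ^ Fintype.card F - X := h1
  have h3 := congrArg (fun f : F[X] => f.comp b) h2
  simp only [Polynomial.prod_comp, sub_comp, X_comp, C_comp, pow_comp] at h3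
  exact h3.symm

/-- the odd exponent `1 + q + ... + q ^ (m - 1)` -/
theorem exists_u (hq : Odd (Fintype.card F)) {m : ℕ} (hm : Odd m) :
    ∃ u : ℕ, Odd u ∧ u * (Fintype.card F - 1) + 1 = Fintype.card F ^ m := by
  obtain ⟨r, hr⟩ : ∃ r, Fintype.card F = r + 1 :=
    ⟨Fintype.card F - 1, by have := q_ge (F := F); omega⟩
  refine ⟨∑ i ∈ range m, Fintype.card F ^ i, ?_, ?_⟩
  · rw [Finset.odd_sum_iff_odd_card_odd, filter_true_of_mem (fun i _ => hq.pow)]
    simpa using hm
  · rw [hr, Nat.add_sub_cancel]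
    exact geom_sum_mul_add r m

theorem exists_class {a : F[X]} (ha : 0 < a.natDegree) {m u : ℕ} (hm : a.natDegree < m)
    (hu : u * (Fintype.card F - 1) + 1 = Fintype.card F ^ m) {P : F[X]} (hP : P ∈ II F m) :
    ∃ c : F, c ≠ 0 ∧ P ∣ a ^ u - C c := by
  obtain ⟨_, h2, h3⟩ := (mem_II (by omega)).mp hP
  have hpr : Prime P := h2.prime
  have ha0 : a ≠ 0 := by
    rintro rfl
    simp at ha
  have hna : ¬ P ∣ a := fun h => by
    have := natDegree_le_of_dvd h ha0
    omega
  have h4 : P ∣ G a m := irr_dvd_G a h2 (h3 ▸ dvd_rfl)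
  have h5 : G a m = a * (a ^ (u * (Fintype.card F - 1)) - 1) := by
    unfold G
    rw [← hu]; ring
  rw [h5] at h4
  have h6 := (hpr.dvd_or_dvd h4).resolve_left hna
  have h7 : P ∣ (a ^ u) ^ Fintype.card F - a ^ u := by
    refine h6.trans ⟨a ^ u, ?_⟩
    obtain ⟨r, hr⟩ : ∃ r, Fintype.card F = r + 1 :=
      ⟨Fintype.card F - 1, by have := q_ge (F := F); omega⟩
    rw [hr, Nat.add_sub_cancel]; ring
  rw [prod_sub_C] at h7
  obtain ⟨c, _, hc⟩ := (hpr.dvd_finsetProd_iff _).mp h7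
  refine ⟨c, ?_, hc⟩
  rintro rfl
  rw [C_0, sub_zero] at hc
  exact hna (hpr.dvd_of_dvd_pow hc)

omit [Fintype F] in
theorem sqrt_chain (b : F) (s : ℕ) (h : b ^ 2 ^ s = 1) :
    b = 1 ∨ ∃ r, r < s ∧ b ^ 2 ^ r = -1 := by
  induction s with
  | zero => left; simpa using h
  | succ s ih =>
    rw [pow_succ, pow_mul, sq] at h
    rcases mul_self_eq_one_iff.mp h with h1 | h1
    · rcases ih h1 with h2 | ⟨r, h2, h3⟩
      · exact Or.inl h2
      · exact Or.inr ⟨r, by omega, h3⟩
    · exact Or.inr ⟨s, by omega, h1⟩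

theorem strong_of_class {a f : F[X]} {m u : ℕ}
    (hu0 : Odd u) (hu : u * (Fintype.card F - 1) + 1 = Fintype.card F ^ m)
    (hf : f.natDegree = 2 * m) {c : F} (hc : c ≠ 0) (hd : f ∣ a ^ u - C c) : IsStrong a f := by
  have hq2 := q_ge (F := F)
  set q := Fintype.card F with hqdef
  have hne : (q - 1) * (q ^ m + 1) ≠ 0 := Nat.mul_ne_zero (by omega) (by positivity)
  obtain ⟨s, v, hv, hsv⟩ := Nat.exists_eq_two_pow_mul_odd hne
  have e1 : nrm f - 1 = u * v * 2 ^ s := by
    unfold nrm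
    rw [hf, ← hqdef]
    have : q ^ (2 * m) = u * v * 2 ^ s + 1 := by
      calc q ^ (2 * m) = q ^ m * q ^ m := by ring
        _ = (u * (q - 1) + 1) * q ^ m := by rw [hu]
        _ = u * (q - 1) * q ^ m + (u * (q - 1) + 1) := by rw [hu, ← hu]; ring
        _ = u * ((q - 1) * (q ^ m + 1)) + 1 := by ring
        _ = _ := by rw [hsv]; ring
    omega
  have hdk : ∀ k : ℕ, f ∣ a ^ (u * k) - C (c ^ k) := by
    intro k
    rw [pow_mul, C_pow]
    exact hd.trans (sub_dvd_pow_sub_pow _ _ k)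
  have hb : (c ^ v) ^ 2 ^ s = 1 := by
    rw [← pow_mul, mul_comm v, ← hsv, pow_mul, FiniteField.pow_card_sub_one_eq_one c hc, one_pow]
  refine ⟨s, u * v, hu0.mul hv, e1, ?_⟩
  rcases sqrt_chain _ s hb with h1 | ⟨r, h2, h3⟩
  · left
    have := hdk v
    rwa [h1, C_1] at this
  · right
    have := hdk (v * 2 ^ r)
    rw [pow_mul c, h3, C_neg, C_1, sub_neg_eq_add, ← mul_assoc] at this
    rcases Nat.eq_zero_or_pos r with rfl | hr
    · left
      simpa using this
    · exact Or.inr ⟨r, hr, h2, this⟩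

theorem fin_norm (N : ℕ) (p : F[X] → Prop) :
    {f : F[X] | Composite f ∧ nrm f ≤ N ∧ p f}.Finite := by
  apply Set.Finite.subset ((Set.finite_le_nat N).biUnion (fun m _ => fin_monic (F := F) m))
  rintro f ⟨h1, h2, _⟩
  simp only [Set.mem_iUnion]
  refine ⟨f.natDegree, ?_, h1.1, rfl⟩
  exact le_trans (Nat.lt_pow_self (q_ge (F := F))).le h2

open Classical in
theorem lower_pairs (hq : Odd (Fintype.card F)) {a : F[X]} (ha : 0 < a.natDegree) {m : ℕ}
    (hm : Odd m) (hm2 : a.natDegree < m) {N : ℕ} (hN : Fintype.card F ^ (2 * m) ≤ N) :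
    ∃ k : ℕ, (II F m).card ≤ Fintype.card F * k ∧ k.choose 2 ≤ cntS a N := by
  obtain ⟨u, hu0, hu⟩ := exists_u hq hm
  have hm1 : 1 ≤ m := by omega
  set T : F → Finset F[X] := fun c => (II F m).filter (fun P => c ≠ 0 ∧ P ∣ a ^ u - C c) with hT
  obtain ⟨c, _, hc⟩ := exists_max_image (univ : Finset F) (fun c => (T c).card) univ_nonempty
  refine ⟨(T c).card, ?_, ?_⟩
  · calc (II F m).card ≤ (univ.biUnion T).card := by
          apply card_le_card
          intro P hP
          obtain ⟨d, h1, h2⟩ := exists_class ha hm2 hu hP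
          exact mem_biUnion.mpr ⟨d, mem_univ _, mem_filter.mpr ⟨hP, h1, h2⟩⟩
      _ ≤ (univ : Finset F).card * (T c).card :=
          card_biUnion_le_card_mul _ _ _ (fun d hd => hc d hd)
      _ = _ := by rw [card_univ]
  · have hTm : ∀ P ∈ T c, (P.Monic ∧ Irreducible P ∧ P.natDegree = m) ∧ c ≠ 0 ∧
        P ∣ a ^ u - C c := by
      intro P hP
      obtain ⟨h1, h2⟩ := mem_filter.mp hP
      exact ⟨(mem_II hm1).mp h1, h2⟩
    rw [← card_powersetCard, cntS, ← Set.ncard_coe_finset]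
    apply Set.ncard_le_ncard_of_injOn (fun s => ∏ P ∈ s, P) _ _ (fin_norm N _)
    · intro s hs
      obtain ⟨h1, h2⟩ := mem_powersetCard.mp (mem_coe.mp hs)
      obtain ⟨P, Q, hne, rfl⟩ := card_eq_two.mp h2
      obtain ⟨⟨p1, p2, p3⟩, p4, p5⟩ := hTm P (h1 (by simp))
      obtain ⟨⟨q1, q2, q3⟩, _, q5⟩ := hTm Q (h1 (by simp))
      have hdeg : (P * Q).natDegree = 2 * m := by
        rw [p1.natDegree_mul q1]; omega
      have hdv : ∏ R ∈ ({P, Q} : Finset F[X]), R ∣ a ^ u - C c :=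
        prod_irr_dvd (fun R hR => ⟨(hTm R (h1 hR)).1.1, (hTm R (h1 hR)).1.2.1⟩)
          (fun R hR => (hTm R (h1 hR)).2.2)
      simp only [Set.mem_ofPred_eq]
      rw [prod_pair hne] at hdv ⊢
      refine ⟨⟨p1.mul q1, ?_, ?_⟩, ?_, strong_of_class hu0 hu hdeg p4 hdv⟩
      · intro h
        rw [h, natDegree_one] at hdeg
        omega
      · intro h
        rcases h.isUnit_or_isUnit rfl with h' | h'
        · exact p2.not_isUnit h'
        · exact q2.not_isUnit h'
      · unfold nrm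
        rwa [hdeg]
    · have key : ∀ s t : Finset F[X], s ⊆ T c → t ⊆ T c → ∏ P ∈ s, P = ∏ P ∈ t, P → s ⊆ t := by
        intro s t hs ht hst P hP
        have h1 := (hTm P (hs hP)).1
        have h2 : P ∣ ∏ R ∈ t, R := hst ▸ dvd_prod_of_mem (fun R => R) hP
        obtain ⟨R, hR, h3⟩ := (h1.2.1.prime.dvd_finsetProd_iff _).mp h2
        have h4 := (hTm R (ht hR)).1
        rwa [eq_of_monic_of_associated h1.1 h4.1 (h1.2.1.associated_of_dvd h4.2.1 h3)]
      intro s hs t ht hst
      have hs' := (mem_powersetCard.mp (mem_coe.mp hs)).1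
      have ht' := (mem_powersetCard.mp (mem_coe.mp ht)).1
      exact Subset.antisymm (key s t hs' ht' hst) (key t s ht' hs' hst.symm)

theorem lower (hq : Odd (Fintype.card F)) {a : F[X]} (ha : 0 < a.natDegree) :
    ∃ L0 : ℕ, ∀ L N : ℕ, L0 ≤ L → Fintype.card F ^ L ≤ N →
      Fintype.card F ^ L ≤ 16 * Fintype.card F ^ 5 * (L + 2) ^ 2 * cntS a N := by
  have hq2 := q_ge (F := F)
  set q := Fintype.card F with hqdef
  refine ⟨2 * (a.natDegree + 8 + 8 * q) + 4, fun L N hL hN => ?_⟩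
  obtain ⟨m, hm, h1, h2⟩ : ∃ m, Odd m ∧ 2 * m ≤ L ∧ L ≤ 2 * m + 3 :=
    ⟨2 * ((L - 2) / 4) + 1, ⟨_, rfl⟩, by omega, by omega⟩
  obtain ⟨k, k1, k2⟩ := lower_pairs hq ha hm (by omega)
    (le_trans (Nat.pow_le_pow_right (by omega) h1) hN)
  have k3 := card_II (F := F) (m := m) (by omega)
  rw [← hqdef] at k1 k3
  have k4 : q ^ m ≤ 2 * m * q * k := by
    calc q ^ m ≤ 2 * (m * (q * k)) :=
          k3.trans (Nat.mul_le_mul_left _ (Nat.mul_le_mul_left _ k1))
      _ = _ := by ring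
  have k5 : 2 ≤ k := by
    by_contra hh
    have c1 := cube_le m
    have c2 : 2 ^ m ≤ q ^ m := Nat.pow_le_pow_left hq2 m
    have c3 : 2 * m * q * k ≤ 2 * m * q * 1 := Nat.mul_le_mul_left _ (by omega)
    have c4 : m ^ 3 ≤ 8 * q * m := by nlinarith
    have c5 : 8 * q < m := by omega
    have c6 : m * m ≤ m ^ 3 := by
      calc m * m = m ^ 2 := by ring
        _ ≤ m ^ 3 := Nat.pow_le_pow_right (by omega) (by omega)
    have c7 : 8 * q * m < m * m := Nat.mul_lt_mul_of_pos_right c5 (by omega)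
    omega
  have k6 : k * k ≤ 4 * k.choose 2 := by
    obtain ⟨j, rfl⟩ : ∃ j, k = j + 2 := ⟨k - 2, by omega⟩
    have : (j + 2).choose 2 * 2 = (j + 2) * (j + 1) := by
      rw [Nat.choose_two_right]
      exact Nat.div_mul_cancel (Nat.even_mul_pred_self (j + 2)).two_dvd
    nlinarith
  calc q ^ L ≤ q ^ (2 * m + 3) := Nat.pow_le_pow_right (by omega) h2
    _ = q ^ m * q ^ m * q ^ 3 := by ring
    _ ≤ (2 * m * q * k) * (2 * m * q * k) * q ^ 3 :=
        Nat.mul_le_mul_right _ (Nat.mul_le_mul k4 k4)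
    _ = 4 * q ^ 5 * m ^ 2 * (k * k) := by ring
    _ ≤ 4 * q ^ 5 * (L + 2) ^ 2 * (4 * cntS a N) :=
        Nat.mul_le_mul (Nat.mul_le_mul_left _ (Nat.pow_le_pow_left (by omega) 2)) (by omega)
    _ = _ := by ring

end Pool.Agent.MP_181839_nt.H47
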