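import Pool.Agent.MP_181839_nt.H47.Upper
import Pool.Agent.MP_181839_nt.H47.Lower

set_option autoImplicit false

namespace Pool.Agent.MP_181839_nt.H47

open Polynomial Finset

variable {F : Type} [Field F] [Fintype F]

theorem psp_of_strong (hq : Odd (Fintype.card F)) {a f : F[X]} (h : IsStrong a f) :
    IsPsp a f := by
  obtain ⟨s, t, ht, e, h⟩ := h
  unfold IsPsp
  rw [e]
  have sq : ∀ k j : ℕ, f ∣ a ^ k + 1 → f ∣ a ^ (k * 2 ^ (j + 1)) - 1 := by
    intro k j hk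
    have h1 : f ∣ (a ^ k) ^ 2 - 1 := hk.trans ⟨a ^ k - 1, by ring⟩
    have h2 := sub_dvd_pow_sub_pow ((a ^ k) ^ 2) 1 (2 ^ j)
    rw [one_pow, ← pow_mul, ← pow_mul] at h2
    rw [pow_succ' 2 j]
    rw [← pow_mul] at h1
    rw [← mul_assoc]
    exact h1.trans h2
  rcases h with h | h | ⟨r, _, h2, h3⟩
  · have h2 := sub_dvd_pow_sub_pow (a ^ t) 1 (2 ^ s)
    rw [one_pow, ← pow_mul] at h2
    exact h.trans h2
  · rcases s with _ | s
    · exfalso
      have h1 : Odd (nrm f) := hq.pow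
      obtain ⟨x, hx⟩ := h1
      obtain ⟨y, hy⟩ := ht
      omega
    · exact sq t s h
  · obtain ⟨j, rfl⟩ : ∃ j, s = r + (j + 1) := ⟨s - r - 1, by omega⟩
    rw [pow_add, ← mul_assoc]
    exact sq _ j h3

theorem cntS_le (hq : Odd (Fintype.card F)) (a : F[X]) (N : ℕ) : cntS a N ≤ cntC a N := by
  apply Set.ncard_le_ncard _ (fin_norm N _)
  rintro f ⟨h1, h2, h3⟩
  exact ⟨h1, h2, psp_of_strong hq h3⟩

theorem main (hq : Odd (Fintype.card F)) {a : F[X]} (ha : 0 < a.natDegree) :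
    ∃ ε : ℝ, 0 < ε ∧ ∀ᶠ N : ℕ in Filter.atTop, ε ≤ (cntS a N : ℝ) / (cntC a N : ℝ) := by
  have hq2 := q_ge (F := F)
  have hq3 : 3 ≤ Fintype.card F := by
    obtain ⟨x, hx⟩ := hq
    omega
  obtain ⟨K, hK0, hK⟩ := upper ha hq3
  obtain ⟨L0, hL⟩ := lower hq ha
  set q := Fintype.card F with hqdef
  have hqR : (0 : ℝ) < q := by exact_mod_cast (by omega : 0 < q)
  refine ⟨1 / (16 * (q : ℝ) ^ 5 * K), by positivity, ?_⟩
  filter_upwards [Filter.eventually_ge_atTop (q ^ L0)] with N hN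
  have hN0 : N ≠ 0 := by
    have : 0 < q ^ L0 := by positivity
    omega
  set L := Nat.log q N with hLdef
  have h1 := hL L N (Nat.le_log_of_pow_le (by omega) hN) (Nat.pow_log_le_self q hN0)
  have h2 := hK N
  have h3 : (q : ℝ) ^ L ≤ 16 * (q : ℝ) ^ 5 * ((L : ℝ) + 2) ^ 2 * cntS a N := by exact_mod_cast h1
  have h4 : 0 < cntS a N := by
    rcases Nat.eq_zero_or_pos (cntS a N) with h | h
    · rw [h, mul_zero] at h1
      have : 0 < q ^ L := by positivity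
      omega
    · exact h
  have h5 : (0 : ℝ) < cntC a N := by exact_mod_cast lt_of_lt_of_le h4 (cntS_le hq a N)
  have h6 : (q : ℝ) ^ L / ((L : ℝ) + 2) ^ 2 ≤ 16 * (q : ℝ) ^ 5 * cntS a N := by
    rw [div_le_iff₀ (by positivity)]
    linarith
  rw [div_le_div_iff₀ (by positivity) h5]
  nlinarith [mul_le_mul_of_nonneg_left h6 hK0.le]

end Pool.Agent.MP_181839_nt.H47
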