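import Pool.Agent.MP_181839_nt.H47.Basic

set_option autoImplicit false

namespace Pool.Agent.MP_181839_nt.H47

open Polynomial Finset UniqueFactorizationMonoid

variable {F : Type} [Field F] [Fintype F]

open Classical in
/-- monic polynomials of degree `m` all of whose monic irreducible factors satisfy `al` -/
noncomputable def AA (al : F[X] → Prop) (m : ℕ) : Finset F[X] :=
  (Mo F m).filter (fun f => ∀ P : F[X], P.Monic → Irreducible P → P ∣ f → al P)

open Classical in
/-- monic irreducible polynomials satisfying `al` whose degree divides `e` -/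
noncomputable def TT (al : F[X] → Prop) (e : ℕ) : Finset F[X] :=
  ((range (e + 1)).biUnion (Mo F)).filter (fun P => Irreducible P ∧ al P ∧ P.natDegree ∣ e)

theorem mem_AA {al : F[X] → Prop} {m : ℕ} {f : F[X]} :
    f ∈ AA al m ↔ (f.Monic ∧ f.natDegree = m) ∧
      ∀ P : F[X], P.Monic → Irreducible P → P ∣ f → al P := by
  simp [AA, mem_Mo]

theorem mem_TT {al : F[X] → Prop} {e : ℕ} (he : 1 ≤ e) {P : F[X]} :
    P ∈ TT al e ↔ P.Monic ∧ Irreducible P ∧ al P ∧ P.natDegree ∣ e := by
  simp only [TT, mem_filter, mem_biUnion, mem_range, mem_Mo]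
  constructor
  · rintro ⟨⟨i, _, h1, _⟩, h2⟩
    exact ⟨h1, h2⟩
  · rintro ⟨h1, h2, h3, h4⟩
    exact ⟨⟨P.natDegree, Nat.lt_succ_of_le (Nat.le_of_dvd he h4), h1, rfl⟩, h2, h3, h4⟩

omit [Fintype F] in
open Classical in
theorem deg_eq_sum {f : F[X]} (hf : f.Monic) :
    f.natDegree = ∑ P ∈ (normalizedFactors f).toFinset,
      (normalizedFactors f).count P * P.natDegree := by
  have h1 : (normalizedFactors f).prod = f := by
    rw [prod_normalizedFactors_eq hf.ne_zero, hf.normalize_eq_self]
  conv_lhs => rw [← h1]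
  rw [natDegree_multiset_prod _ (zero_notMem_normalizedFactors f), sum_multiset_map_count]
  simp

omit [Fintype F] in
open Classical in
theorem pow_dvd_of_count {f : F[X]} (hf : f.Monic) (P : F[X]) {j : ℕ}
    (hj : j ≤ (normalizedFactors f).count P) : P ^ j ∣ f := by
  have h1 : (normalizedFactors f).prod = f := by
    rw [prod_normalizedFactors_eq hf.ne_zero, hf.normalize_eq_self]
  have h2 := Multiset.prod_dvd_prod_of_le (Multiset.le_count_iff_replicate_le.mp hj)
  rwa [h1, Multiset.prod_replicate] at h2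

open Classical in
theorem step_one {al : F[X] → Prop} {m : ℕ} {f : F[X]} (hf : f ∈ AA al m) :
    m ≤ ∑ e ∈ Icc 1 m, ∑ P ∈ TT al e,
      (if P ^ (e / P.natDegree) ∣ f then P.natDegree else 0) := by
  obtain ⟨⟨hm, hd⟩, hal⟩ := mem_AA.mp hf
  have hnf : ∀ P ∈ (normalizedFactors f).toFinset, Irreducible P ∧ P.Monic ∧ P ∣ f := by
    intro P hP
    exact (Polynomial.mem_normalizedFactors_iff hm.ne_zero).mp (Multiset.mem_toFinset.mp hP)
  calc m = ∑ P ∈ (normalizedFactors f).toFinset, (normalizedFactors f).count P * P.natDegree := by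
        rw [← hd]; exact deg_eq_sum hm
    _ ≤ ∑ P ∈ (normalizedFactors f).toFinset, ∑ e ∈ Icc 1 m,
          (if P.natDegree ∣ e ∧ P ^ (e / P.natDegree) ∣ f then P.natDegree else 0) := by
        apply sum_le_sum
        intro P hP
        obtain ⟨h1, h2, h3⟩ := hnf P hP
        have hpos : 0 < P.natDegree := h1.natDegree_pos
        rw [← sum_filter, sum_const, smul_eq_mul]
        apply Nat.mul_le_mul_right
        calc (normalizedFactors f).count P = (Icc 1 ((normalizedFactors f).count P)).card := by simp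
          _ ≤ _ := by
            apply card_le_card_of_injOn (fun j => j * P.natDegree)
            · intro j hj
              simp only [coe_Icc, Set.mem_Icc] at hj
              have hdv := pow_dvd_of_count hm P hj.2
              have hle := natDegree_le_of_dvd hdv hm.ne_zero
              rw [natDegree_pow, hd] at hle
              simp only [coe_filter, mem_Icc, Set.mem_ofPred_eq]
              refine ⟨⟨Nat.mul_pos hj.1 hpos, hle⟩, Dvd.intro_left _ rfl, ?_⟩
              rwa [Nat.mul_div_cancel _ hpos]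
            · intro i _ j _ hij
              exact Nat.eq_of_mul_eq_mul_right hpos hij
    _ = ∑ e ∈ Icc 1 m, ∑ P ∈ (normalizedFactors f).toFinset,
          (if P.natDegree ∣ e ∧ P ^ (e / P.natDegree) ∣ f then P.natDegree else 0) := sum_comm
    _ ≤ _ := by
        apply sum_le_sum
        intro e he
        rw [← sum_filter, ← sum_filter]
        apply sum_le_sum_of_subset
        intro P hP
        rw [mem_filter] at hP ⊢
        obtain ⟨h1, h2, h3⟩ := hnf P hP.1
        exact ⟨(mem_TT (mem_Icc.mp he).1).mpr ⟨h2, h1, hal P h2 h1 h3, hP.2.1⟩, hP.2.2⟩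

open Classical in
theorem step_two {al : F[X] → Prop} {m e : ℕ} {Q : F[X]} (hQ : Q.Monic) (hd : Q.natDegree = e) :
    ((AA al m).filter (fun f => Q ∣ f)).card ≤ (AA al (m - e)).card := by
  calc _ ≤ ((AA al (m - e)).image (fun g => Q * g)).card := by
        apply card_le_card
        intro f hf
        obtain ⟨hf1, g, rfl⟩ := mem_filter.mp hf
        obtain ⟨⟨hm, hdeg⟩, hal⟩ := mem_AA.mp hf1
        have hg : g.Monic := hQ.of_mul_monic_left hm
        rw [hQ.natDegree_mul hg] at hdeg
        exact mem_image.mpr ⟨g, mem_AA.mpr ⟨⟨hg, by omega⟩,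
          fun P h1 h2 h3 => hal P h1 h2 (h3.mul_left _)⟩, rfl⟩
    _ ≤ _ := card_image_le

open Classical in
theorem recur (al : F[X] → Prop) (m : ℕ) :
    m * (AA al m).card ≤
      ∑ e ∈ Icc 1 m, (∑ P ∈ TT al e, P.natDegree) * (AA al (m - e)).card := by
  calc m * (AA al m).card = ∑ _f ∈ AA al m, m := by simp [mul_comm]
    _ ≤ ∑ f ∈ AA al m, ∑ e ∈ Icc 1 m, ∑ P ∈ TT al e,
          (if P ^ (e / P.natDegree) ∣ f then P.natDegree else 0) :=
        sum_le_sum fun f hf => step_one hf
    _ = ∑ e ∈ Icc 1 m, ∑ P ∈ TT al e, ∑ f ∈ AA al m,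
          (if P ^ (e / P.natDegree) ∣ f then P.natDegree else 0) := by
        rw [sum_comm]
        exact sum_congr rfl fun e _ => sum_comm
    _ ≤ _ := by
        apply sum_le_sum
        intro e he
        rw [sum_mul]
        apply sum_le_sum
        intro P hP
        obtain ⟨h1, _, _, h4⟩ := (mem_TT (mem_Icc.mp he).1).mp hP
        rw [← sum_filter, sum_const, smul_eq_mul, mul_comm]
        apply Nat.mul_le_mul_left
        apply step_two (h1.pow _)
        rw [natDegree_pow, Nat.div_mul_cancel h4]

theorem card_AA_le (al : F[X] → Prop) (m : ℕ) : (AA al m).card ≤ Fintype.card F ^ m := by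
  rw [← card_Mo]
  exact card_le_card (fun f hf => mem_Mo.mpr (mem_AA.mp hf).1)

end Pool.Agent.MP_181839_nt.H47
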