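import Pool.Agent.MP_181839_nt.H47.Rec
import Pool.Agent.MP_181839_nt.H47.Ana
import Pool.Agent.MP_74e98a_nt.H25.Div

set_option autoImplicit false

namespace Pool.Agent.MP_181839_nt.H47

open Polynomial Finset

variable {F : Type} [Field F] [Fintype F]

/-- the irreducible polynomials that can divide a composite pseudoprime of degree `n` -/
def Al (a : F[X]) (n : ℕ) (P : F[X]) : Prop := P ∣ G a n ∧ P.natDegree ≠ n

theorem lam_div {a : F[X]} (ha : 0 < a.natDegree) (al : F[X] → Prop) {e : ℕ} (he : 1 ≤ e) :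
    ∑ P ∈ TT al e, P.natDegree ≤ a.natDegree * Fintype.card F ^ e := by
  rw [← G_natDegree ha he]
  apply sum_deg_le _ (G_ne ha he)
  · intro P hP
    obtain ⟨_, h2, _, h4⟩ := (mem_TT he).mp hP
    exact irr_dvd_G a h2 h4
  · intro P hP
    obtain ⟨h1, h2, _, _⟩ := (mem_TT he).mp hP
    exact ⟨h1, h2⟩

theorem lam_ndiv {a : F[X]} (ha : 0 < a.natDegree) {n e : ℕ} (he : 1 ≤ e)
    (h : ¬ (e ∣ n ∧ e < n)) (hn : 1 ≤ n) :
    e ^ 2 * ∑ P ∈ TT (Al a n) e, P.natDegree ≤ 32 * (a.natDegree * Fintype.card F ^ e) := by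
  have h1 : ∑ P ∈ TT (Al a n) e, P.natDegree ≤
      (e / 2) * (a.natDegree * Fintype.card F ^ (e / 2)) := by
    apply sum_deg_small ha
    · intro P hP
      obtain ⟨h1, h2, _, _⟩ := (mem_TT he).mp hP
      exact ⟨h1, h2⟩
    · intro P hP
      obtain ⟨_, h2, ⟨h3, h3'⟩, h4⟩ := (mem_TT he).mp hP
      refine ⟨Nat.gcd P.natDegree n, Nat.gcd_pos_of_pos_right _ hn, ?_,
        dvd_G_gcd (irr_dvd_G a h2 dvd_rfl) h3⟩
      have g1 : Nat.gcd P.natDegree n ∣ e := (Nat.gcd_dvd_left _ _).trans h4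
      have g2 : Nat.gcd P.natDegree n ≠ e := by
        intro hh
        have e1 : e ∣ n := hh ▸ Nat.gcd_dvd_right _ _
        have e2 : e ∣ P.natDegree := hh ▸ Nat.gcd_dvd_left _ _
        have e3 : P.natDegree = e := Nat.dvd_antisymm h4 e2
        have e4 : e ≤ n := Nat.le_of_dvd hn e1
        exact h ⟨e1, by omega⟩
      obtain ⟨k, hk⟩ := g1
      have k2 : 2 ≤ k := by
        by_contra hh
        have : k < 2 := by omega
        interval_cases k <;> omega
      have : Nat.gcd P.natDegree n * 2 ≤ Nat.gcd P.natDegree n * k := Nat.mul_le_mul_left _ k2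
      omega
  have h2 := cube_half (q_ge (F := F)) e
  calc e ^ 2 * ∑ P ∈ TT (Al a n) e, P.natDegree
      ≤ e ^ 2 * (e * (a.natDegree * Fintype.card F ^ (e / 2))) :=
        Nat.mul_le_mul_left _ (h1.trans (Nat.mul_le_mul_right _ (Nat.div_le_self _ _)))
    _ = a.natDegree * (e ^ 3 * Fintype.card F ^ (e / 2)) := by ring
    _ ≤ a.natDegree * (32 * Fintype.card F ^ e) := Nat.mul_le_mul_left _ h2
    _ = _ := by ring

theorem tau_cube : ∃ C : ℝ, 0 ≤ C ∧ ∀ n : ℕ, (n.divisors.card : ℝ) ^ 3 ≤ C * n := by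
  obtain ⟨C, hC, h⟩ := Pool.Agent.MP_74e98a_nt.H25.divisor_bound (1 / 3) (by norm_num)
  refine ⟨C ^ 3, by positivity, fun n => ?_⟩
  calc (n.divisors.card : ℝ) ^ 3 ≤ (C * (n : ℝ) ^ (1 / 3 : ℝ)) ^ 3 :=
        pow_le_pow_left₀ (by positivity) (h n) 3
    _ = C ^ 3 * n := by
        rw [mul_pow, ← Real.rpow_natCast ((n : ℝ) ^ (1 / 3 : ℝ)), ← Real.rpow_mul (by positivity)]
        norm_num

theorem upper_deg {a : F[X]} (ha : 0 < a.natDegree) :
    ∃ K : ℝ, 0 ≤ K ∧ ∀ n : ℕ, 1 ≤ n →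
      (n : ℝ) ^ 2 * ((AA (Al a n) n).card : ℝ) ≤ K * (Fintype.card F : ℝ) ^ n := by
  obtain ⟨C, hC0, hC⟩ := tau_cube
  set q : ℝ := (Fintype.card F : ℝ) with hq
  have hq0 : 0 < q := by
    rw [hq]; exact_mod_cast (by have := q_ge (F := F); omega : 0 < Fintype.card F)
  set D : ℝ := (a.natDegree : ℝ) with hD
  have hD0 : 0 ≤ D := Nat.cast_nonneg _
  refine ⟨12 * 65 ^ 3 * D ^ 3 * C + 2 * 65 * 288 * D ^ 2 + 2 * 289 * D ^ 2 + 288 * D,
    by positivity, fun n hn => ?_⟩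
  have key := analytic D C hD0 n hn (hC n) (fun m => ((AA (Al a n) m).card : ℝ) / q ^ m)
    (fun e => ((∑ P ∈ TT (Al a n) e, P.natDegree : ℕ) : ℝ) / q ^ e)
    (fun m => by positivity)
    (fun m => by
      rw [div_le_one (by positivity), hq]
      exact_mod_cast card_AA_le _ m)
    (fun e => by positivity)
    (fun e he => by
      have heR : (0 : ℝ) < e := by exact_mod_cast he
      split_ifs with h
      · have h1 : ((∑ P ∈ TT (Al a n) e, P.natDegree : ℕ) : ℝ) ≤ D * q ^ e := by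
          rw [hD, hq]; exact_mod_cast lam_div ha _ he
        have h2 : 0 ≤ 32 * D * (1 / (e : ℝ) ^ 2) := by positivity
        have h3 := (div_le_iff₀ (by positivity : 0 < q ^ e)).mpr h1
        linarith
      · have h1 : (e : ℝ) ^ 2 * ((∑ P ∈ TT (Al a n) e, P.natDegree : ℕ) : ℝ) ≤
            32 * (D * q ^ e) := by
          rw [hD, hq]; exact_mod_cast lam_ndiv ha he h hn
        rw [zero_add, mul_one_div, div_le_div_iff₀ (by positivity) (by positivity)]
        linarith)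
    (fun m => by
      have h1 : (m : ℝ) * ((AA (Al a n) m).card : ℝ) ≤ ∑ e ∈ Icc 1 m,
          ((∑ P ∈ TT (Al a n) e, P.natDegree : ℕ) : ℝ) * ((AA (Al a n) (m - e)).card : ℝ) := by
        exact_mod_cast recur (Al a n) m
      rw [← mul_div_assoc, div_le_iff₀ (by positivity), sum_mul]
      refine h1.trans (le_of_eq (sum_congr rfl fun e he => ?_))
      have h2 : q ^ m = q ^ e * q ^ (m - e) := by
        rw [← pow_add, Nat.add_sub_cancel' (mem_Icc.mp he).2]
      rw [h2]; field_simp)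
  rw [← mul_div_assoc, div_le_iff₀ (by positivity)] at key
  exact key

theorem psp_mem {a f : F[X]} (h1 : Composite f) (h2 : IsPsp a f) :
    1 ≤ f.natDegree ∧ f ∈ AA (Al a f.natDegree) f.natDegree := by
  obtain ⟨hm, hne, hirr⟩ := h1
  refine ⟨Nat.one_le_iff_ne_zero.mpr fun h => hne (hm.natDegree_eq_zero.mp h),
    mem_AA.mpr ⟨⟨hm, rfl⟩, fun P hP hI hd => ⟨?_, fun hdeg => hirr ?_⟩⟩⟩
  · refine hd.trans (dvd_trans h2 ⟨a, ?_⟩)
    have : 1 ≤ Fintype.card F ^ f.natDegree :=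
      Nat.one_le_pow _ _ (by have := q_ge (F := F); omega)
    unfold G nrm
    rw [sub_mul, ← pow_succ, Nat.sub_add_cancel this, one_mul]
  · rwa [eq_of_monic_of_dvd_of_natDegree_le hP hm hd hdeg.ge]

open Classical in
theorem upper {a : F[X]} (ha : 0 < a.natDegree) (hq : 3 ≤ Fintype.card F) :
    ∃ K : ℝ, 0 < K ∧ ∀ N : ℕ, (cntC a N : ℝ) ≤
      K * ((Fintype.card F : ℝ) ^ (Nat.log (Fintype.card F) N) /
        ((Nat.log (Fintype.card F) N : ℝ) + 2) ^ 2) := by
  obtain ⟨K, hK0, hK⟩ := upper_deg ha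
  refine ⟨36 * K + 1, by positivity, fun N => ?_⟩
  set L := Nat.log (Fintype.card F) N with hL
  have h1 : cntC a N ≤ ∑ n ∈ Icc 1 L, (AA (Al a n) n).card := by
    refine le_trans ?_ card_biUnion_le
    unfold cntC
    rw [← Set.ncard_coe_finset]
    apply Set.ncard_le_ncard _ (Finset.finite_toSet _)
    rintro f ⟨c1, c2, c3⟩
    obtain ⟨d1, d2⟩ := psp_mem c1 c3
    simp only [coe_biUnion, Set.mem_iUnion, mem_coe]
    exact ⟨f.natDegree, mem_Icc.mpr ⟨d1, Nat.le_log_of_pow_le (by omega) c2⟩, d2⟩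
  have hqR : (3 : ℝ) ≤ Fintype.card F := by exact_mod_cast hq
  have h2 := geom_sq hqR L
  have hpos : 0 ≤ (Fintype.card F : ℝ) ^ L / ((L : ℝ) + 2) ^ 2 := by positivity
  calc (cntC a N : ℝ) ≤ ∑ n ∈ Icc 1 L, ((AA (Al a n) n).card : ℝ) := by exact_mod_cast h1
    _ ≤ ∑ n ∈ Icc 1 L, 9 * K * ((Fintype.card F : ℝ) ^ n / ((n : ℝ) + 2) ^ 2) := by
        apply sum_le_sum
        intro n hn
        have hn1 := (mem_Icc.mp hn).1
        have hnR : (1 : ℝ) ≤ n := by exact_mod_cast hn1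
        have h3 := hK n hn1
        rw [← mul_div_assoc, le_div_iff₀ (by positivity)]
        have h4 : ((n : ℝ) + 2) ^ 2 ≤ 9 * (n : ℝ) ^ 2 := by nlinarith
        nlinarith [mul_le_mul_of_nonneg_left h4 (Nat.cast_nonneg (α := ℝ) (AA (Al a n) n).card)]
    _ ≤ ∑ n ∈ range (L + 1), 9 * K * ((Fintype.card F : ℝ) ^ n / ((n : ℝ) + 2) ^ 2) := by
        apply sum_le_sum_of_subset_of_nonneg
        · intro n hn
          exact mem_range.mpr (Nat.lt_succ_of_le (mem_Icc.mp hn).2)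
        · intro n _ _
          positivity
    _ ≤ 9 * K * (4 * ((Fintype.card F : ℝ) ^ L / ((L : ℝ) + 2) ^ 2)) := by
        rw [← mul_sum]
        exact mul_le_mul_of_nonneg_left h2 (by positivity)
    _ ≤ _ := by nlinarith

end Pool.Agent.MP_181839_nt.H47
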